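import Pool.Agent.Q21.TTM

/-!
# Tilings of the symmetric group by transpositions: a divisibility condition for every partition

`Tstar n` is the set of all transpositions of `n` points, `Tid n` the set of the identity and all
transpositions, and `content μ` the sum of the contents `j - i` of the cells of the diagram with rows `μ`.

(1) If the transpositions tile `S_n`, then `n (n - 1)` divides `μ₀! μ₁! ...` for every `μ` with sum `n` and
positive content.
(2) If the identity and the transpositions tile `S_n`, then `1 + n (n - 1) / 2` divides `μ₀! μ₁! ...` for every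
`μ` with sum `n` and nonnegative content.
(3), (4) Hence no tiling exists if `n (n - 1) / 2` has a prime factor `p` with `(p - 1) ^ 2 ≥ n + 2`, resp. if
`1 + n (n - 1) / 2` has a prime factor `p` with `(p - 1) ^ 2 ≥ n`.
-/

set_option autoImplicit false

open Pool.Agent.Q21.TT

namespace Pool.Agent.Results.MP_bfa556_co.ContentDivisibility

theorem result : ∀ n : ℕ, 2 ≤ n →
    (Tiles (Tstar n) → ∀ (a : ℕ) (μ : Fin a → ℕ), ∑ i, μ i = n → 0 < content μ →
      n * (n - 1) ∣ ∏ i, (μ i).factorial) ∧
    (Tiles (Tid n) → ∀ (a : ℕ) (μ : Fin a → ℕ), ∑ i, μ i = n → 0 ≤ content μ →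
      1 + n * (n - 1) / 2 ∣ ∏ i, (μ i).factorial) ∧
    (∀ p : ℕ, p.Prime → p ∣ n * (n - 1) / 2 → n + 2 ≤ (p - 1) ^ 2 → ¬ Tiles (Tstar n)) ∧
    (∀ p : ℕ, p.Prime → p ∣ 1 + n * (n - 1) / 2 → n ≤ (p - 1) ^ 2 → ¬ Tiles (Tid n)) := by
  intro n hn
  refine ⟨fun h a μ hμ hc => star_dvd h μ hμ hc, fun h a μ hμ hc => id_dvd h μ hμ hc, ?_, ?_⟩
  · intro p hp hdvd hbig hT
    have hp1 : 1 ≤ p := hp.one_lt.le
    obtain ⟨q, rfl⟩ : ∃ q, p = q + 1 := ⟨p - 1, by omega⟩
    have hq : 0 < q := by have := hp.one_lt; omega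
    rw [Nat.add_sub_cancel] at hbig
    have hpos := rows_pos hn hq hbig
    rw [cc_eq] at hpos
    have hc : 0 < content (rows n q) := by
      have : (0 : ℝ) < (content (rows n q) : ℝ) := by linarith
      exact_mod_cast this
    have h1 := star_dvd hT (rows n q) (rows_sum n q) hc
    have h2 : n * (n - 1) / 2 ∣ n * (n - 1) := Nat.div_dvd_of_dvd (Nat.even_mul_pred_self n).two_dvd
    exact not_dvd_rows hq hp ((hdvd.trans h2).trans h1)
  · intro p hp hdvd hbig hT
    have hp1 : 1 ≤ p := hp.one_lt.le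
    obtain ⟨q, rfl⟩ : ∃ q, p = q + 1 := ⟨p - 1, by omega⟩
    have hq : 0 < q := by have := hp.one_lt; omega
    rw [Nat.add_sub_cancel] at hbig
    have hnn := rows_nonneg hq hbig
    rw [cc_eq] at hnn
    have hc : 0 ≤ content (rows n q) := by
      have : (0 : ℝ) ≤ (content (rows n q) : ℝ) := by linarith
      exact_mod_cast this
    exact not_dvd_rows hq hp (hdvd.trans (id_dvd hT (rows n q) (rows_sum n q) hc))

end Pool.Agent.Results.MP_bfa556_co.ContentDivisibility
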